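import Mathlib
import Pool.Agent.R223.Stk.Fin

set_option autoImplicit false
open MeasureTheory Set Real

namespace Pool.Agent.Results.MP_e8a268_an.ThreeArcsNotOptimal
open Pool.Agent.R223.StkDefs

/-- For `k = 2` and all `α < 1` close to `1` the density `𝟙_{𝓘^3_α}` does not minimize `λ_2` over `𝓐_α`. -/
theorem result : ∃ α₀ : ℝ, 0 < α₀ ∧ α₀ < 1 ∧ ∀ α : ℝ, α₀ < α → α < 1 →
    Adm α (arcs 3 α) ∧ ∃ ρ : ℝ → ℝ, Adm α ρ ∧ lam 2 ρ < lam 2 (arcs 3 α) := by
  have he1 : Real.exp (-10000) < 1 := by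
    rw [← Real.exp_zero]; exact Real.exp_lt_exp.2 (by norm_num)
  refine ⟨1 - Real.exp (-10000), ?_, ?_, ?_⟩
  · linarith
  · have := Real.exp_pos (-10000)
    linarith
  · intro α h1 h2
    set ε : ℝ := 1 - α with hε
    have h0 : 0 < ε := by rw [hε]; linarith
    have hεe : ε < Real.exp (-10000) := by rw [hε]; linarith
    have hα : α = 1 - ε := by rw [hε]; ring
    have hL : 10000 ≤ Real.log (1 / ε) := by
      rw [one_div, Real.log_inv]
      have h3 : Real.log ε ≤ -10000 := by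
        have := Real.log_le_log h0 hεe.le
        rwa [Real.log_exp] at this
      linarith
    refine ⟨Pool.Agent.R223.Stk.arcs_adm α (by linarith) h2, ?_⟩
    obtain ⟨ha, hu⟩ := Pool.Agent.R223.Stk.lam_upper ε _ _ h0 rfl hL rfl
    have hl := Pool.Agent.R223.Stk.lam_lower ε _ _ h0 rfl hL rfl
    rw [← hα] at ha hl
    refine ⟨_, ha, lt_of_le_of_lt hu (lt_of_lt_of_le ?_ hl)⟩
    have h4 : 0 < ε ^ 2 * Real.log (1 / ε) := by
      have : 0 < Real.log (1 / ε) := by linarith
      positivity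
    linarith

end Pool.Agent.Results.MP_e8a268_an.ThreeArcsNotOptimal
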